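import Pool.Agent.Q256.Lamp

/-!
For the lamplighter graph with lamps on the edges of the two-way infinite path the survival number
is at most `6`, while the unrestricted Voronoi count is infinite.
-/

namespace Pool.Agent.Results.MP_785f4e_co.Lamplighter

open SimpleGraph Pool.Agent.Q256.Surv Pool.Agent.Q256.Lamp

/-- the minimum of `I(T)` over the sets with `n` elements -/
noncomputable def minCount {V : Type*} (G : SimpleGraph V) (n : ℕ) : ℕ∞ :=
  ⨅ (T : Finset V) (_ : T.card = n), (numInfinite G T : ℕ∞)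

/-! ### the survival number -/

/-- the lamps of the sites -/
def lam (N : ℤ) : Fin 6 → Finset ℤ := ![{N}, {0, 2 * N}, {3 * N}, {-N}, {-1, -2 * N}, {-3 * N}]

/-- the positions of the sites -/
def pos : Fin 6 → ℤ := ![1, 1, -1, -1, -1, 1]

/-- the remote lamp of the sites -/
def big (N : ℤ) : Fin 6 → ℤ := ![N, 2 * N, 3 * N, -N, -2 * N, -3 * N]

/-- the six sites -/
def site (N : ℤ) (i : Fin 6) : W := (lam N i, pos i)

theorem big_mem (N : ℤ) (i : Fin 6) : big N i ∈ lam N i := by
  fin_cases i <;> simp [big, lam]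

theorem big_notMem (N : ℤ) (hN : 2 ≤ N) (i j : Fin 6) (h : i ≠ j) : big N i ∉ lam N j := by
  fin_cases i <;> fin_cases j <;> simp [big, lam] at h ⊢ <;> omega

theorem big_abs (N : ℤ) (hN : 2 ≤ N) (i : Fin 6) : N ≤ big N i ∨ big N i ≤ -N := by
  fin_cases i <;> simp [big] <;> omega

theorem pos0 : pos 0 = 1 := rfl
theorem pos1 : pos 1 = 1 := rfl
theorem pos2 : pos 2 = -1 := rfl
theorem pos3 : pos 3 = -1 := rfl
theorem pos4 : pos 4 = -1 := rfl
theorem pos5 : pos 5 = 1 := rfl

theorem pos_abs (i : Fin 6) : (pos i).natAbs = 1 := by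
  fin_cases i <;> simp [pos]

theorem D_ge (u v : W) (b : ℤ) (h : b ∈ symmDiff u.1 v.1) : (b - u.2).natAbs ≤ D u v := by
  have h1 := D_int u v
  have a1 := R_ge1 u v
  have a2 := R_ge2 u v
  have a3 := L_le1 u v
  have a4 := L_le2 u v
  have a5 := R_ge3 u v b h
  have a6 := L_le3 u v b h
  omega

theorem beat (N : ℤ) (hN : 2 ≤ N) (u : W)
    (hu : 3 * N + 1 < R u (∅, 0) ∨ L u (∅, 0) < -3 * N) :
    ∃ i, D u (site N i) < D u (∅, 0) := by
  obtain ⟨B, y⟩ := u
  have h1 := D_int (B, y) (∅, 0)
  have a1 := R_ge1 (B, y) (∅, 0)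
  have a2 := R_ge2 (B, y) (∅, 0)
  have a3 := L_le1 (B, y) (∅, 0)
  have a4 := L_le2 (B, y) (∅, 0)
  have a5 : ∀ b ∈ B, b + 1 ≤ R (B, y) (∅, 0) := fun b hb =>
    R_ge3 (B, y) (∅, 0) b (by simpa [symmDiff] using hb)
  have a6 : ∀ b ∈ B, L (B, y) (∅, 0) ≤ b := fun b hb =>
    L_le3 (B, y) (∅, 0) b (by simpa [symmDiff] using hb)
  have key : ∀ i : Fin 6, ∀ r l : ℤ, y ≤ r → pos i ≤ r → l ≤ y → l ≤ pos i →
      (∀ b ∈ symmDiff B (lam N i), l ≤ b ∧ b + 1 ≤ r) →
      (D (B, y) (site N i) : ℤ) ≤ 2 * (r - l) - (y - pos i).natAbs := by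
    intro i r l b1 b2 b3 b4 b5
    have c1 := D_int (B, y) (site N i)
    have c2 : R (B, y) (site N i) ≤ r := R_le _ _ _ b1 b2 (fun b hb => (b5 b hb).2)
    have c3 : l ≤ L (B, y) (site N i) := le_L _ _ _ b3 b4 (fun b hb => (b5 b hb).1)
    change (D (B, y) (site N i) : ℤ) = 2 * (R (B, y) (site N i) - L (B, y) (site N i)) -
      (y - pos i).natAbs at c1
    omega
  simp only at h1 a1 a2 a3 a4
  generalize R (B, y) (∅, 0) = r at *
  generalize L (B, y) (∅, 0) = l at *
  generalize D (B, y) (∅, 0) = D0 at *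
  rcases hu with hu | hu
  · by_cases hy : y ≤ 0
    · refine ⟨0, ?_⟩
      have k := key 0 r l a1 (by simp [pos]; omega) a3 (by simp [pos]; omega) (by
        intro b hb
        rw [Finset.mem_symmDiff] at hb
        rcases hb with ⟨hb, -⟩ | ⟨hb, -⟩
        · exact ⟨a6 b hb, a5 b hb⟩
        · simp [lam] at hb; omega)
      rw [pos0] at k
      omega
    · by_cases hl : l ≤ -1
      · refine ⟨2, ?_⟩
        have k := key 2 r l a1 (by simp [pos]; omega) a3 (by simp [pos]; omega) (by
          intro b hb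
          rw [Finset.mem_symmDiff] at hb
          rcases hb with ⟨hb, -⟩ | ⟨hb, -⟩
          · exact ⟨a6 b hb, a5 b hb⟩
          · simp [lam] at hb; omega)
        rw [pos2] at k
        omega
      · by_cases h0 : (0 : ℤ) ∈ B
        · refine ⟨1, ?_⟩
          have k := key 1 r 1 a1 (by simp [pos]; omega) (by omega) (by simp [pos]) (by
            intro b hb
            rw [Finset.mem_symmDiff] at hb
            rcases hb with ⟨hb, hb'⟩ | ⟨hb, hb'⟩
            · have c1 := a6 b hb
              have c2 : b ≠ 0 := by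
                rintro rfl
                simp [lam] at hb'
              exact ⟨by omega, a5 b hb⟩
            · simp [lam] at hb
              have c2 : b ≠ 0 := by
                rintro rfl
                exact hb' h0
              omega)
          rw [pos1] at k
          omega
        · refine ⟨0, ?_⟩
          have k := key 0 r 1 a1 (by simp [pos]; omega) (by omega) (by simp [pos]) (by
            intro b hb
            rw [Finset.mem_symmDiff] at hb
            rcases hb with ⟨hb, hb'⟩ | ⟨hb, hb'⟩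
            · have c1 := a6 b hb
              have c2 : b ≠ 0 := by
                rintro rfl
                exact h0 hb
              exact ⟨by omega, a5 b hb⟩
            · simp [lam] at hb; omega)
          rw [pos0] at k
          omega
  · by_cases hy : 0 ≤ y
    · refine ⟨3, ?_⟩
      have k := key 3 r l a1 (by simp [pos]; omega) a3 (by simp [pos]; omega) (by
        intro b hb
        rw [Finset.mem_symmDiff] at hb
        rcases hb with ⟨hb, -⟩ | ⟨hb, -⟩
        · exact ⟨a6 b hb, a5 b hb⟩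
        · simp [lam] at hb; omega)
      rw [pos3] at k
      omega
    · by_cases hl : 1 ≤ r
      · refine ⟨5, ?_⟩
        have k := key 5 r l a1 (by simp [pos]; omega) a3 (by simp [pos]; omega) (by
          intro b hb
          rw [Finset.mem_symmDiff] at hb
          rcases hb with ⟨hb, -⟩ | ⟨hb, -⟩
          · exact ⟨a6 b hb, a5 b hb⟩
          · simp [lam] at hb; omega)
        rw [pos5] at k
        omega
      · by_cases h0 : (-1 : ℤ) ∈ B
        · refine ⟨4, ?_⟩
          have k := key 4 (-1) l (by omega) (by simp [pos]) a3 (by simp [pos]; omega) (by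
            intro b hb
            rw [Finset.mem_symmDiff] at hb
            rcases hb with ⟨hb, hb'⟩ | ⟨hb, hb'⟩
            · have c1 := a5 b hb
              have c2 : b ≠ -1 := by
                rintro rfl
                simp [lam] at hb'
              exact ⟨a6 b hb, by omega⟩
            · simp [lam] at hb
              have c2 : b ≠ -1 := by
                rintro rfl
                exact hb' h0
              omega)
          rw [pos4] at k
          omega
        · refine ⟨3, ?_⟩
          have k := key 3 (-1) l (by omega) (by simp [pos]) a3 (by simp [pos]; omega) (by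
            intro b hb
            rw [Finset.mem_symmDiff] at hb
            rcases hb with ⟨hb, hb'⟩ | ⟨hb, hb'⟩
            · have c1 := a5 b hb
              have c2 : b ≠ -1 := by
                rintro rfl
                exact h0 hb
              exact ⟨a6 b hb, by omega⟩
            · simp [lam] at hb; omega)
          rw [pos3] at k
          omega

theorem G_survival : survival G ≤ 6 := by
  classical
  refine survival_le G G_conn 6 ?_
  intro d
  set N : ℤ := (d : ℤ) + 2 with hN
  have hN2 : 2 ≤ N := by omega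
  have hne : ∀ i, site N i ≠ (∅, 0) := by
    intro i h
    have h1 := big_mem N i
    have h2 : lam N i = ∅ := congrArg Prod.fst h
    rw [h2] at h1
    simp at h1
  have hinj : Function.Injective (site N) := by
    intro i j h
    by_contra hij
    have h1 := big_mem N i
    have h2 : lam N i = lam N j := congrArg Prod.fst h
    rw [h2] at h1
    exact big_notMem N hN2 i j hij h1
  refine ⟨insert (∅, 0) (Finset.univ.image (site N)), ?_, ?_, (∅, 0),
    Finset.mem_insert_self _ _, ?_⟩
  · rw [Finset.card_insert_of_notMem, Finset.card_image_of_injective _ hinj]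
    · simp
    · intro h
      rw [Finset.mem_image] at h
      obtain ⟨q, -, hq⟩ := h
      exact hne q hq
  · have h0 : ∀ i : Fin 6, d < D (site N i) (∅, 0) := by
      intro i
      have h1 := D_ge (site N i) (∅, 0) (big N i) (by simpa [symmDiff, site] using big_mem N i)
      have h2 := big_abs N hN2 i
      have h3 := pos_abs i
      simp only [site] at h1 ⊢
      omega
    have h1 : ∀ i j : Fin 6, i ≠ j → d < D (site N i) (site N j) := by
      intro i j hij
      have h1 := D_ge (site N i) (site N j) (big N i) (by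
        rw [Finset.mem_symmDiff]
        exact Or.inl ⟨big_mem N i, big_notMem N hN2 i j hij⟩)
      have h2 := big_abs N hN2 i
      have h3 := pos_abs i
      simp only [site] at h1 ⊢
      omega
    intro v₁ h₁ v₂ h₂ hne
    rw [Finset.mem_insert, Finset.mem_image] at h₁ h₂
    rw [G_dist]
    rcases h₁ with rfl | ⟨q, -, rfl⟩ <;> rcases h₂ with rfl | ⟨r, -, rfl⟩
    · exact absurd rfl hne
    · rw [D_symm]; exact h0 r
    · exact h0 q
    · exact h1 q r (fun h => hne (by rw [h]))
  · refine (finite_ball G G_conn (∅, 0) (12 * N.toNat + 2)).subset ?_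
    intro u hu
    change G.dist u (∅, 0) ≤ _
    by_contra hcon
    rw [G_dist] at hcon
    have h1 := D_int u (∅, 0)
    obtain ⟨q, hq⟩ := beat N hN2 u (by omega)
    have h1 := hu (site N q) (Finset.mem_insert_of_mem
      (Finset.mem_image_of_mem _ (Finset.mem_univ _)))
    rw [G_dist, G_dist] at h1
    omega

/-! ### the unrestricted count -/

theorem right (k : ℕ) (P : Finset W) (hP : P.card ≤ k) (v : W)
    (hfin : {u | ∀ p ∈ P, G.dist u v ≤ G.dist u p}.Finite) :
    ∃ p ∈ P, v.2 < p.2 ∧ p.2 < v.2 + 2 * k ∧ ∀ b < v.2, b ∈ p.1 ↔ b ∈ v.1 := by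
  classical
  have key : ∀ j : Fin (k + 1), ∃ p ∈ P, ∃ y : ℤ, v.2 + k < y ∧
      D (symmDiff v.1 {v.2 + j}, y) p < D (symmDiff v.1 {v.2 + j}, y) v := by
    intro j
    have hinj : Function.Injective
        (fun r : ℕ => ((symmDiff v.1 {v.2 + j}, v.2 + k + 1 + r) : W)) := by
      intro r r' h
      have h1 := (Prod.mk.inj h).2
      omega
    obtain ⟨r, hr⟩ : ∃ r : ℕ, ((symmDiff v.1 {v.2 + j}, v.2 + k + 1 + r) : W) ∉
        {u | ∀ p ∈ P, G.dist u v ≤ G.dist u p} := by
      by_contra hcon2
      push Not at hcon2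
      exact Set.infinite_of_injective_forall_mem hinj hcon2 hfin
    simp only [Set.mem_ofPred_eq, not_forall, not_le] at hr
    obtain ⟨p, hpP, hp⟩ := hr
    rw [G_dist, G_dist] at hp
    exact ⟨p, hpP, _, by omega, hp⟩
  choose p hpP y hy hp using key
  -- consequences of beating
  have cons : ∀ j : Fin (k + 1), v.2 + (p j).2 < 2 * L (symmDiff v.1 {v.2 + j}, y j) (p j) ∧
      L (symmDiff v.1 {v.2 + j}, y j) (p j) ≤ (p j).2 := by
    intro j
    have h1 := hp j
    have h2 := D_int (symmDiff v.1 {v.2 + (j : ℤ)}, y j) (p j)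
    have h3 := D_int (symmDiff v.1 {v.2 + (j : ℤ)}, y j) v
    have a1 := R_ge1 (symmDiff v.1 {v.2 + (j : ℤ)}, y j) (p j)
    have a2 := R_ge2 (symmDiff v.1 {v.2 + (j : ℤ)}, y j) (p j)
    have a3 := L_le1 (symmDiff v.1 {v.2 + (j : ℤ)}, y j) (p j)
    have a4 := L_le2 (symmDiff v.1 {v.2 + (j : ℤ)}, y j) (p j)
    have hj := j.2
    have hyj := hy j
    have hm : ∀ b ∈ symmDiff (symmDiff v.1 {v.2 + (j : ℤ)}) v.1, b = v.2 + j := by
      intro b hb
      rw [symmDiff_comm v.1, symmDiff_assoc, symmDiff_self, symmDiff_bot] at hb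
      simpa using hb
    have b1 : R (symmDiff v.1 {v.2 + (j : ℤ)}, y j) v ≤ y j :=
      R_le _ _ _ le_rfl (by omega) (fun b hb => by
        have := hm b hb
        omega)
    have b2 : v.2 ≤ L (symmDiff v.1 {v.2 + (j : ℤ)}, y j) v :=
      le_L _ _ _ (by simp only; omega) le_rfl (fun b hb => by
        have := hm b hb
        omega)
    simp only at h2 h3 a1 a2 a3 a4
    omega
  have agree : ∀ j : Fin (k + 1), ∀ b < L (symmDiff v.1 {v.2 + j}, y j) (p j),
      (b ∈ (p j).1 ↔ b ∈ symmDiff v.1 {v.2 + (j : ℤ)}) := by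
    intro j b hb
    by_contra hcon
    have := L_le3 (symmDiff v.1 {v.2 + (j : ℤ)}, y j) (p j) b (by
      rw [Finset.mem_symmDiff]
      simp only
      tauto)
    omega
  -- pigeonhole
  obtain ⟨i, -, j, -, hij, hpij⟩ := Finset.exists_ne_map_eq_of_card_lt_of_maps_to
    (s := (Finset.univ : Finset (Fin (k + 1)))) (t := P) (f := p)
    (by rw [Finset.card_univ, Fintype.card_fin]; omega) (fun a _ => hpP a)
  have main : ∀ i : Fin (k + 1), L (symmDiff v.1 {v.2 + i}, y i) (p i) ≤ v.2 + k →
      ∃ p ∈ P, v.2 < p.2 ∧ p.2 < v.2 + 2 * k ∧ ∀ b < v.2, b ∈ p.1 ↔ b ∈ v.1 := by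
    intro i hi
    have c := cons i
    refine ⟨p i, hpP i, by omega, by omega, ?_⟩
    intro b hb
    rw [agree i b (by omega), Finset.mem_symmDiff, Finset.mem_singleton]
    constructor
    · rintro (⟨h, -⟩ | ⟨h, -⟩)
      · exact h
      · omega
    · intro h
      exact Or.inl ⟨h, by omega⟩
  by_cases hi : L (symmDiff v.1 {v.2 + i}, y i) (p i) ≤ v.2 + k
  · exact main i hi
  by_cases hj : L (symmDiff v.1 {v.2 + j}, y j) (p j) ≤ v.2 + k
  · exact main j hj
  exfalso
  have hi2 := i.2
  have hj2 := j.2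
  have e1 := agree i (v.2 + i) (by omega)
  have e2 := agree j (v.2 + i) (by omega)
  rw [hpij, e2] at e1
  simp only [Finset.mem_symmDiff, Finset.mem_singleton] at e1
  have hne : (v.2 + (i : ℤ)) ≠ v.2 + j := by
    intro h
    apply hij
    apply Fin.ext
    omega
  by_cases hmem : v.2 + (i : ℤ) ∈ v.1
  · simp [hmem, hne] at e1
  · simp [hmem, hne] at e1

theorem left (k : ℕ) (P : Finset W) (hP : P.card ≤ k) (v : W)
    (hfin : {u | ∀ p ∈ P, G.dist u v ≤ G.dist u p}.Finite) :
    ∃ p ∈ P, ∀ b, v.2 ≤ b → (b ∈ p.1 ↔ b ∈ v.1) := by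
  classical
  have key : ∀ j : Fin (k + 1), ∃ p ∈ P, ∃ y : ℤ, y < v.2 - k ∧
      D (symmDiff v.1 {v.2 - 1 - j}, y) p < D (symmDiff v.1 {v.2 - 1 - j}, y) v := by
    intro j
    have hinj : Function.Injective
        (fun r : ℕ => ((symmDiff v.1 {v.2 - 1 - j}, v.2 - k - 1 - r) : W)) := by
      intro r r' h
      have h1 := (Prod.mk.inj h).2
      omega
    obtain ⟨r, hr⟩ : ∃ r : ℕ, ((symmDiff v.1 {v.2 - 1 - j}, v.2 - k - 1 - r) : W) ∉
        {u | ∀ p ∈ P, G.dist u v ≤ G.dist u p} := by
      by_contra hcon2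
      push Not at hcon2
      exact Set.infinite_of_injective_forall_mem hinj hcon2 hfin
    simp only [Set.mem_ofPred_eq, not_forall, not_le] at hr
    obtain ⟨p, hpP, hp⟩ := hr
    rw [G_dist, G_dist] at hp
    exact ⟨p, hpP, _, by omega, hp⟩
  choose p hpP y hy hp using key
  have cons : ∀ j : Fin (k + 1), 2 * R (symmDiff v.1 {v.2 - 1 - j}, y j) (p j) < v.2 + (p j).2 ∧
      (p j).2 ≤ R (symmDiff v.1 {v.2 - 1 - j}, y j) (p j) := by
    intro j
    have h1 := hp j
    have h2 := D_int (symmDiff v.1 {v.2 - 1 - (j : ℤ)}, y j) (p j)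
    have h3 := D_int (symmDiff v.1 {v.2 - 1 - (j : ℤ)}, y j) v
    have a1 := R_ge1 (symmDiff v.1 {v.2 - 1 - (j : ℤ)}, y j) (p j)
    have a2 := R_ge2 (symmDiff v.1 {v.2 - 1 - (j : ℤ)}, y j) (p j)
    have a3 := L_le1 (symmDiff v.1 {v.2 - 1 - (j : ℤ)}, y j) (p j)
    have a4 := L_le2 (symmDiff v.1 {v.2 - 1 - (j : ℤ)}, y j) (p j)
    have hj := j.2
    have hyj := hy j
    have hm : ∀ b ∈ symmDiff (symmDiff v.1 {v.2 - 1 - (j : ℤ)}) v.1, b = v.2 - 1 - j := by
      intro b hb
      rw [symmDiff_comm v.1, symmDiff_assoc, symmDiff_self, symmDiff_bot] at hb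
      simpa using hb
    have b1 : R (symmDiff v.1 {v.2 - 1 - (j : ℤ)}, y j) v ≤ v.2 :=
      R_le _ _ _ (by simp only; omega) le_rfl (fun b hb => by
        have := hm b hb
        omega)
    have b2 : y j ≤ L (symmDiff v.1 {v.2 - 1 - (j : ℤ)}, y j) v :=
      le_L _ _ _ le_rfl (by omega) (fun b hb => by
        have := hm b hb
        omega)
    simp only at h2 h3 a1 a2 a3 a4
    omega
  have agree : ∀ j : Fin (k + 1), ∀ b, R (symmDiff v.1 {v.2 - 1 - j}, y j) (p j) ≤ b →
      (b ∈ (p j).1 ↔ b ∈ symmDiff v.1 {v.2 - 1 - (j : ℤ)}) := by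
    intro j b hb
    by_contra hcon
    have := R_ge3 (symmDiff v.1 {v.2 - 1 - (j : ℤ)}, y j) (p j) b (by
      rw [Finset.mem_symmDiff]
      simp only
      tauto)
    omega
  have c := cons 0
  refine ⟨p 0, hpP 0, ?_⟩
  intro b hb
  rw [agree 0 b (by omega), Finset.mem_symmDiff, Finset.mem_singleton]
  constructor
  · rintro (⟨h, -⟩ | ⟨h, -⟩)
    · exact h
    · omega
  · intro h
    exact Or.inl ⟨h, by omega⟩

theorem count (k : ℕ) (T : Finset W) (hT : k + k * k * (2 * k) < T.card) :
    k < numInfinite G T := by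
  classical
  by_contra hcon
  have hne : T.Nonempty := Finset.card_pos.1 (by omega)
  obtain ⟨P, hPT, hPcard, hP⟩ := exists_beaten_all G T hne
  have hPk : P.card ≤ k := by omega
  have h1 : ∀ w ∈ T \ P, ∃ q ∈ (P ×ˢ P) ×ˢ Finset.range (2 * k),
      w = (q.1.1.1.filter (· < q.1.1.2 - q.2) ∪ q.1.2.1.filter (q.1.1.2 - q.2 ≤ ·),
        q.1.1.2 - (q.2 : ℤ)) := by
    intro w hw
    rw [Finset.mem_sdiff] at hw
    have hfin := hP w hw.1 hw.2
    obtain ⟨p, hpP, hp1, hp2, hp3⟩ := right k P hPk w hfin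
    obtain ⟨p', hp'P, hp'⟩ := left k P hPk w hfin
    refine ⟨((p, p'), (p.2 - w.2).toNat), ?_, ?_⟩
    · rw [Finset.mem_product, Finset.mem_product, Finset.mem_range]
      exact ⟨⟨hpP, hp'P⟩, by simp only; omega⟩
    · have e : p.2 - ((p.2 - w.2).toNat : ℤ) = w.2 := by omega
      simp only [e]
      refine Prod.ext ?_ rfl
      ext b
      simp only [Finset.mem_union, Finset.mem_filter]
      by_cases hb : b < w.2
      · have := hp3 b hb
        constructor
        · intro h; exact Or.inl ⟨this.2 h, hb⟩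
        · rintro (⟨h, -⟩ | ⟨-, h⟩)
          · exact this.1 h
          · omega
      · have := hp' b (by omega)
        constructor
        · intro h; exact Or.inr ⟨this.2 h, by omega⟩
        · rintro (⟨-, h⟩ | ⟨h, -⟩)
          · omega
          · exact this.1 h
  have h2 : T \ P ⊆ ((P ×ˢ P) ×ˢ Finset.range (2 * k)).image (fun q =>
      ((q.1.1.1.filter (· < q.1.1.2 - q.2) ∪ q.1.2.1.filter (q.1.1.2 - q.2 ≤ ·),
        q.1.1.2 - (q.2 : ℤ)) : W)) := by
    intro w hw
    obtain ⟨q, hq, hq'⟩ := h1 w hw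
    rw [Finset.mem_image]
    exact ⟨q, hq, hq'.symm⟩
  have h3 := (Finset.card_le_card h2).trans Finset.card_image_le
  rw [Finset.card_product, Finset.card_product, Finset.card_range,
    Finset.card_sdiff_of_subset hPT] at h3
  have h4 : P.card * P.card * (2 * k) ≤ k * k * (2 * k) :=
    Nat.mul_le_mul_right _ (Nat.mul_le_mul hPk hPk)
  omega

theorem result : ∃ (V : Type) (G : SimpleGraph V) (_ : G.LocallyFinite),
    Infinite V ∧ G.Connected ∧ VertexTransitive G ∧
    Filter.Tendsto (minCount G) Filter.atTop (nhds ⊤) ∧ survival G ≤ 6 := by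
  refine ⟨W, G, instLF, inferInstance, G_conn, G_vt, ?_, G_survival⟩
  rw [ENat.tendsto_nhds_top_iff_natCast_lt]
  intro k
  filter_upwards [Filter.eventually_gt_atTop (k + 1 + (k + 1) * (k + 1) * (2 * (k + 1)))] with n hn
  have h1 : ((k + 1 : ℕ) : ℕ∞) ≤ minCount G n := by
    unfold minCount
    refine le_iInf₂ ?_
    intro T hT
    have := count (k + 1) T (by omega)
    exact_mod_cast this.le
  refine lt_of_lt_of_le ?_ h1
  exact_mod_cast Nat.lt_succ_self k

end Pool.Agent.Results.MP_785f4e_co.Lamplighter
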